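import Mathlib

/-! Every set of the sigma-algebra generated by clopen sets is the injective
projection of a closed set of `X × (ℕ → ℕ)`. -/

namespace Pool.Agent.X219.ME

open Set Topology

/-- `R` is the injective projection of a closed subset of `X × (ℕ → ℕ)`. -/
def UProj {X : Type*} [TopologicalSpace X] (R : Set X) : Prop :=
  ∃ E : Set (X × (ℕ → ℕ)), IsClosed E ∧ (∀ x ∈ R, ∃ v, (x, v) ∈ E) ∧
    (∀ x v, (x, v) ∈ E → x ∈ R) ∧ (∀ x v w, (x, v) ∈ E → (x, w) ∈ E → v = w)

variable {X : Type*} [TopologicalSpace X]

theorem uproj_closed {R : Set X} (h : IsClosed R) : UProj R := by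
  refine ⟨R ×ˢ {fun _ => 0}, h.prod isClosed_singleton, fun x hx => ⟨fun _ => 0, by simp [hx]⟩,
    fun x v hv => hv.1, fun x v w hv hw => ?_⟩
  have h1 := hv.2
  have h2 := hw.2
  simp only [mem_singleton_iff] at h1 h2
  rw [h1, h2]

theorem uproj_iInter {R : ℕ → Set X} (h : ∀ n, UProj (R n)) : UProj (⋂ n, R n) := by
  choose E hc h1 h2 h3 using h
  refine ⟨⋂ n, (fun p : X × (ℕ → ℕ) => (p.1, fun k => p.2 (Nat.pair n k))) ⁻¹' (E n), ?_, ?_, ?_, ?_⟩
  · refine isClosed_iInter fun n => (hc n).preimage ?_
    refine continuous_fst.prodMk (continuous_pi fun k => ?_)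
    exact (continuous_apply _).comp continuous_snd
  · intro x hx
    have hx' : ∀ n, x ∈ R n := fun n => mem_iInter.1 hx n
    choose v hv using fun n => h1 n x (hx' n)
    refine ⟨fun m => v (Nat.unpair m).1 (Nat.unpair m).2, mem_iInter.2 fun n => ?_⟩
    simp only [mem_preimage, Nat.unpair_pair]
    exact hv n
  · intro x v hv
    exact mem_iInter.2 fun n => h2 n x _ (mem_iInter.1 hv n)
  · intro x v w hv hw
    funext m
    have := h3 (Nat.unpair m).1 x _ _ (mem_iInter.1 hv (Nat.unpair m).1) (mem_iInter.1 hw (Nat.unpair m).1)
    have h4 := congrFun this (Nat.unpair m).2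
    simpa using h4

theorem uproj_iUnion {R : ℕ → Set X} (h : ∀ n, UProj (R n))
    (hd : ∀ n m x, x ∈ R n → x ∈ R m → n = m) : UProj (⋃ n, R n) := by
  choose E hc h1 h2 h3 using h
  refine ⟨⋂ n, ({p : X × (ℕ → ℕ) | p.2 0 ≠ n} ∪
    (fun p : X × (ℕ → ℕ) => (p.1, fun k => p.2 (k + 1))) ⁻¹' (E n)), ?_, ?_, ?_, ?_⟩
  · refine isClosed_iInter fun n => IsClosed.union ?_ ((hc n).preimage ?_)
    · have : IsClopen ((fun p : X × (ℕ → ℕ) => p.2 0) ⁻¹' {n}ᶜ) :=
        (isClopen_discrete _).preimage ((continuous_apply 0).comp continuous_snd)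
      exact this.1
    · refine continuous_fst.prodMk (continuous_pi fun k => ?_)
      exact (continuous_apply _).comp continuous_snd
  · intro x hx
    obtain ⟨n, hn⟩ := mem_iUnion.1 hx
    obtain ⟨v, hv⟩ := h1 n x hn
    refine ⟨fun k => Nat.casesOn k n v, mem_iInter.2 fun m => ?_⟩
    by_cases hm : n = m
    · right
      subst hm
      exact hv
    · left
      exact hm
  · intro x v hv
    have := mem_iInter.1 hv (v 0)
    rcases this with h | h
    · exact absurd rfl h
    · exact mem_iUnion.2 ⟨v 0, h2 _ _ _ h⟩
  · intro x v w hv hw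
    have e1 : (x, fun k => v (k + 1)) ∈ E (v 0) := by
      rcases mem_iInter.1 hv (v 0) with h | h
      · exact absurd rfl h
      · exact h
    have e2 : (x, fun k => w (k + 1)) ∈ E (w 0) := by
      rcases mem_iInter.1 hw (w 0) with h | h
      · exact absurd rfl h
      · exact h
    have e0 : v 0 = w 0 := hd _ _ x (h2 _ _ _ e1) (h2 _ _ _ e2)
    rw [← e0] at e2
    have e3 := h3 _ _ _ _ e1 e2
    funext k
    cases k with
    | zero => exact e0
    | succ k => exact congrFun e3 k

/-- The sigma-algebra of sets that are, together with their complement, injective projections. -/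
@[reducible] def algU (X : Type*) [TopologicalSpace X] : MeasurableSpace X where
  MeasurableSet' R := UProj R ∧ UProj Rᶜ
  measurableSet_empty := ⟨uproj_closed isClosed_empty, by
    rw [compl_empty]; exact uproj_closed isClosed_univ⟩
  measurableSet_compl R h := ⟨h.2, by rw [compl_compl]; exact h.1⟩
  measurableSet_iUnion f hf := by
    refine ⟨?_, ?_⟩
    · have h0 : (⋃ n, f n) = ⋃ n, ⋂ m, (if m < n then (f m)ᶜ else f n) := by
        ext x
        simp only [mem_iUnion, mem_iInter]
        constructor
        · intro hx
          classical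
          refine ⟨Nat.find hx, fun m => ?_⟩
          split_ifs with h
          · exact Nat.find_min hx h
          · exact Nat.find_spec hx
        · rintro ⟨n, hn⟩
          refine ⟨n, ?_⟩
          have := hn n
          simpa using this
      rw [h0]
      refine uproj_iUnion (fun n => uproj_iInter fun m => ?_) ?_
      · split_ifs with h
        · exact (hf m).2
        · exact (hf n).1
      · intro n m x hn hm
        simp only [mem_iInter] at hn hm
        have a1 := hn n
        have a2 := hm m
        simp only [lt_irrefl, if_false] at a1 a2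
        rcases lt_trichotomy n m with h | h | h
        · have := hm n
          rw [if_pos h] at this
          exact absurd a1 this
        · exact h
        · have := hn m
          rw [if_pos h] at this
          exact absurd a2 this
    · rw [compl_iUnion]
      exact uproj_iInter fun n => (hf n).2

theorem algU_of_clopen {R : Set X} (h : IsClopen R) : @MeasurableSet X (algU X) R :=
  ⟨uproj_closed h.1, uproj_closed h.compl.1⟩

theorem comap_le_algU {Y : Type*} [TopologicalSpace Y] [DiscreteTopology Y] [m : MeasurableSpace Y]
    {f : X → Y} (hf : Continuous f) : MeasurableSpace.comap f m ≤ algU X := by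
  rintro s ⟨t, _, rfl⟩
  exact algU_of_clopen ((isClopen_discrete t).preimage hf)

theorem uproj_of_measurable {I J A B : Type*} [TopologicalSpace A] [DiscreteTopology A]
    [TopologicalSpace B] [DiscreteTopology B] [MeasurableSpace A] [MeasurableSpace B]
    {R : Set ((I → A) × (J → B))} (h : MeasurableSet R) : UProj R := by
  have hle : (inferInstance : MeasurableSpace ((I → A) × (J → B))) ≤
      algU ((I → A) × (J → B)) := by
    refine sup_le ?_ ?_
    · rw [MeasurableSpace.pi, MeasurableSpace.comap_iSup]
      refine iSup_le fun i => ?_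
      rw [MeasurableSpace.comap_comp]
      exact comap_le_algU ((continuous_apply i).comp continuous_fst)
    · rw [MeasurableSpace.pi, MeasurableSpace.comap_iSup]
      refine iSup_le fun i => ?_
      rw [MeasurableSpace.comap_comp]
      exact comap_le_algU ((continuous_apply i).comp continuous_snd)
  exact (hle R h).1

end Pool.Agent.X219.ME
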