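import Mathlib

/-! Permutations of a countable set built from a compact group action and swaps. -/

namespace Pool.Agent.X219.ME

open Set Topology

/-- The countable set on which the permutations act. -/
@[ext] structure D where
  /-- block number -/
  n : ℕ
  /-- label -/
  a : Finset ℕ
  /-- code -/
  b : Finset ℕ
  /-- flag -/
  f : Bool
  ha : a ⊆ Finset.range n
  hb : b ⊆ Finset.range n

instance : TopologicalSpace D := ⊥
instance : DiscreteTopology D := ⟨rfl⟩

/-- forget the bounds -/
def D.toTuple (x : D) : ℕ × Finset ℕ × Finset ℕ × Bool := (x.n, x.a, x.b, x.f)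

theorem D.toTuple_injective : Function.Injective D.toTuple := by
  intro x y h
  simp only [D.toTuple, Prod.mk.injEq] at h
  exact D.ext h.1 h.2.1 h.2.2.1 h.2.2.2

instance : Countable D := D.toTuple_injective.countable

/-- restriction of `c` to `n` as a finite set -/
def cut (c : ℕ → Bool) (n : ℕ) : Finset ℕ := (Finset.range n).filter (fun i => c i = true)

theorem mem_cut {c : ℕ → Bool} {n i : ℕ} : i ∈ cut c n ↔ i < n ∧ c i = true := by
  simp [cut]

theorem cut_sub (c : ℕ → Bool) (n : ℕ) : cut c n ⊆ Finset.range n := Finset.filter_subset _ _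

theorem cut_congr {c c' : ℕ → Bool} {n : ℕ} (h : ∀ k < n, c k = c' k) : cut c n = cut c' n := by
  ext i
  rw [mem_cut, mem_cut]
  constructor
  · rintro ⟨a, b⟩
    exact ⟨a, by rw [← h i a]; exact b⟩
  · rintro ⟨a, b⟩
    exact ⟨a, by rw [h i a]; exact b⟩

theorem le_of_cut_eq {c c' : ℕ → Bool} {n k : ℕ} (h : cut c n = cut c' n) (hk : c k ≠ c' k) :
    n ≤ k := by
  by_contra hlt
  push Not at hlt
  apply hk
  have : k ∈ cut c n ↔ k ∈ cut c' n := by rw [h]
  rw [mem_cut, mem_cut] at this
  cases h1 : c k <;> cases h2 : c' k <;> simp_all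

/-- The action of `c`: flips the labels by `c`. -/
def E (c : ℕ → Bool) (x : D) : D where
  n := x.n
  a := symmDiff x.a (cut c x.n)
  b := x.b
  f := x.f
  ha := by
    intro i hi
    rw [Finset.mem_symmDiff] at hi
    rcases hi with h | h
    · exact x.ha h.1
    · exact cut_sub _ _ h.1
  hb := x.hb

@[simp] theorem E_n (c x) : (E c x).n = x.n := rfl
theorem E_a (c x) : (E c x).a = symmDiff x.a (cut c x.n) := rfl
@[simp] theorem E_b (c x) : (E c x).b = x.b := rfl
@[simp] theorem E_f (c x) : (E c x).f = x.f := rfl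

@[simp] theorem E_E (c x) : E c (E c x) = x := by
  apply D.ext
  · rfl
  · rw [E_a, E_a, E_n, symmDiff_symmDiff_cancel_right]
  · rfl
  · rfl

theorem E_comm (c c' x) : E c (E c' x) = E c' (E c x) := by
  apply D.ext
  · rfl
  · rw [E_a, E_a, E_a, E_a, E_n, E_n, symmDiff_assoc, symmDiff_comm (cut c' x.n), ← symmDiff_assoc]
  · rfl
  · rfl

theorem E_inj (c) : Function.Injective (E c) := Function.LeftInverse.injective (E_E c)

theorem E_a_empty {c x} (h : x.a = ∅) : (E c x).a = cut c x.n := by
  rw [E_a, h]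
  exact bot_symmDiff _

theorem E_congr {c c' : ℕ → Bool} {x : D} (h : ∀ k < x.n, c k = c' k) : E c x = E c' x := by
  apply D.ext
  · rfl
  · rw [E_a, E_a, cut_congr h]
  · rfl
  · rfl

theorem E_eq_le {c c' : ℕ → Bool} {x : D} {k : ℕ} (h : E c x = E c' x) (hk : c k ≠ c' k) :
    x.n ≤ k := by
  have h1 := congrArg D.a h
  rw [E_a, E_a] at h1
  exact le_of_cut_eq (symmDiff_right_injective x.a h1) hk

theorem finite_le (N : ℕ) : {x : D | x.n ≤ N}.Finite := by
  have h1 := Finset.finite_toSet (Finset.range (N + 1) ×ˢ (Finset.range N).powerset ×ˢ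
    (Finset.range N).powerset ×ˢ (Finset.univ : Finset Bool))
  refine (h1.preimage (D.toTuple_injective.injOn)).subset ?_
  intro x hx
  simp only [mem_ofPred_eq] at hx
  have hr : Finset.range x.n ⊆ Finset.range N := Finset.range_subset_range.2 hx
  simp only [mem_preimage, D.toTuple, Finset.coe_product, mem_prod, Finset.mem_coe,
    Finset.mem_range, Finset.mem_powerset, Finset.mem_univ, and_true]
  exact ⟨by omega, x.ha.trans hr, x.hb.trans hr⟩

/-- `m` is the least element of `c` above `n`. -/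
def IsNext (c : ℕ → Bool) (n m : ℕ) : Prop := n < m ∧ c m = true ∧ ∀ k, n < k → k < m → c k = false

theorem IsNext.unique {c n m m'} (h : IsNext c n m) (h' : IsNext c n m') : m = m' := by
  rcases lt_trichotomy m m' with hl | hl | hl
  · have := h'.2.2 m h.1 hl
    rw [h.2.1] at this
    exact absurd this (by simp)
  · exact hl
  · have := h.2.2 m' h'.1 hl
    rw [h'.2.1] at this
    exact absurd this (by simp)

/-- Abstract properties of the active swaps. -/
structure Good (A : (ℕ → Bool) → D → D → Prop) : Prop where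
  uniq : ∀ c s t t', A c s t → A c s t' → t = t'
  uniq' : ∀ c s s' t, A c s t → A c s' t → s = s'
  sa : ∀ c s t, A c s t → s.a = ∅
  sf : ∀ c s t, A c s t → s.f = true
  ta : ∀ c s t, A c s t → 0 ∈ (E c t).a
  loc : ∀ c c' m s t, c m = true → (∀ k ≤ m, c' k = c k) → A c s t → (s.n < m ∨ t.n < m) →
    A c' s t ∧ s.n ≤ m
  fin1 : ∀ c c', c ≠ c' → {s | A c s (E c' s)}.Finite
  fin2 : ∀ c c', c ≠ c' → {s | ∃ t, A c s t ∧ A c' s t}.Finite

variable {A : (ℕ → Bool) → D → D → Prop}

/-- first kind of swap -/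
def HalfA (c : ℕ → Bool) (x y : D) : Prop :=
  x.a = ∅ ∧ x.b = ∅ ∧ x.f = false ∧ y.a = ∅ ∧ y.b = {x.n} ∧ y.f = false ∧ IsNext c x.n y.n

/-- swap, oriented -/
def Half (A : (ℕ → Bool) → D → D → Prop) (c : ℕ → Bool) (x y : D) : Prop :=
  HalfA c x y ∨ A c x (E c y)

/-- swap -/
def Swp (A : (ℕ → Bool) → D → D → Prop) (c : ℕ → Bool) (x y : D) : Prop :=
  Half A c x y ∨ Half A c y x

theorem half_unique (hA : Good A) {c x y y'} (h : Half A c x y) (h' : Half A c x y') : y = y' := by
  rcases h with h | h <;> rcases h' with h' | h'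
  · obtain ⟨_, _, _, a4, a5, a6, a7⟩ := h
    obtain ⟨_, _, _, b4, b5, b6, b7⟩ := h'
    exact D.ext (a7.unique b7) (a4.trans b4.symm) (a5.trans b5.symm) (a6.trans b6.symm)
  · have := hA.sf _ _ _ h'
    rw [h.2.2.1] at this
    exact absurd this (by simp)
  · have := hA.sf _ _ _ h
    rw [h'.2.2.1] at this
    exact absurd this (by simp)
  · exact E_inj c (hA.uniq _ _ _ _ h h')

theorem half_unique' (hA : Good A) {c x y y'} (h : Half A c y x) (h' : Half A c y' x) : y = y' := by
  rcases h with h | h <;> rcases h' with h' | h'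
  · obtain ⟨a1, a2, a3, a4, a5, a6, a7⟩ := h
    obtain ⟨b1, b2, b3, b4, b5, b6, b7⟩ := h'
    refine D.ext ?_ (a1.trans b1.symm) (a2.trans b2.symm) (a3.trans b3.symm)
    exact Finset.singleton_injective (a5.symm.trans b5)
  · have := hA.ta _ _ _ h'
    rw [E_E, h.2.2.2.1] at this
    exact absurd this (by simp)
  · have := hA.ta _ _ _ h
    rw [E_E, h'.2.2.2.1] at this
    exact absurd this (by simp)
  · exact hA.uniq' _ _ _ _ h h'

theorem half_cross (hA : Good A) {c x y y'} (h : Half A c x y) (h' : Half A c y' x) : False := by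
  rcases h with h | h <;> rcases h' with h' | h'
  · have h1 := h.2.1
    rw [h'.2.2.2.2.1] at h1
    exact absurd h1 (Finset.singleton_ne_empty _)
  · have := hA.ta _ _ _ h'
    rw [E_E, h.1] at this
    exact absurd this (by simp)
  · have := hA.sf _ _ _ h
    rw [h'.2.2.2.2.2.1] at this
    exact absurd this (by simp)
  · have := hA.ta _ _ _ h'
    rw [E_E, hA.sa _ _ _ h] at this
    exact absurd this (by simp)

theorem swp_symm {c x y} (h : Swp A c x y) : Swp A c y x := h.symm

theorem swp_unique (hA : Good A) {c x y y'} (h : Swp A c x y) (h' : Swp A c x y') : y = y' := by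
  rcases h with h | h <;> rcases h' with h' | h'
  · exact half_unique hA h h'
  · exact (half_cross hA h h').elim
  · exact (half_cross hA h' h).elim
  · exact half_unique' hA h h'

open Classical in
/-- the involution made of all swaps of `c` -/
noncomputable def pi (A : (ℕ → Bool) → D → D → Prop) (c : ℕ → Bool) (x : D) : D :=
  if h : ∃ y, Swp A c x y then h.choose else x

theorem pi_eq (hA : Good A) {c x y} (h : Swp A c x y) : pi A c x = y := by
  have h' : ∃ y, Swp A c x y := ⟨y, h⟩
  rw [pi, dif_pos h']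
  exact swp_unique hA h'.choose_spec h

theorem pi_self {c x} (h : ¬ ∃ y, Swp A c x y) : pi A c x = x := by
  rw [pi, dif_neg h]

theorem pi_pi (hA : Good A) (c x) : pi A c (pi A c x) = x := by
  by_cases h : ∃ y, Swp A c x y
  · obtain ⟨y, hy⟩ := h
    rw [pi_eq hA hy, pi_eq hA (swp_symm hy)]
  · rw [pi_self h, pi_self h]

/-- The permutation attached to `c`. -/
noncomputable def F (A : (ℕ → Bool) → D → D → Prop) (c : ℕ → Bool) (x : D) : D := E c (pi A c x)

theorem F_bij (hA : Good A) (c) : Function.Bijective (F A c) := by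
  have h1 : Function.Involutive (E c) := E_E c
  have h2 : Function.Involutive (pi A c) := pi_pi hA c
  exact h1.bijective.comp h2.bijective

theorem F_of_A (hA : Good A) {c s t} (h : A c s t) : F A c s = t := by
  have : Swp A c s (E c t) := Or.inl (Or.inr (by rw [E_E]; exact h))
  rw [F, pi_eq hA this, E_E]

theorem F_of_not (hA : Good A) {c x} (h1 : x.a = ∅) (h2 : x.f = true) (h : ¬ ∃ t, A c x t) :
    F A c x = E c x := by
  have : ¬ ∃ y, Swp A c x y := by
    rintro ⟨y, hy⟩
    rcases hy with (hy | hy) | (hy | hy)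
    · rw [hy.2.2.1] at h2
      exact absurd h2 (by simp)
    · exact h ⟨_, hy⟩
    · rw [hy.2.2.2.2.2.1] at h2
      exact absurd h2 (by simp)
    · have := hA.ta _ _ _ hy
      rw [E_E, h1] at this
      exact absurd this (by simp)
  rw [F, pi_self this]

theorem classify (hA : Good A) (c x) : F A c x = E c x ∨ A c x (F A c x) ∨
    ((F A c x).a = cut c (F A c x).n ∧ ((x.f = false ∧ x.a = ∅) ∨
      ∃ s, A c s (E c x) ∧ F A c x = E c s)) := by
  by_cases h : ∃ y, Swp A c x y
  · obtain ⟨y, hy⟩ := h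
    have hF : F A c x = E c y := by rw [F, pi_eq hA hy]
    rcases hy with (hy | hy) | (hy | hy)
    · right; right
      rw [hF]
      exact ⟨E_a_empty hy.2.2.2.1, Or.inl ⟨hy.2.2.1, hy.1⟩⟩
    · right; left
      rw [hF]
      exact hy
    · right; right
      rw [hF]
      exact ⟨E_a_empty hy.1, Or.inl ⟨hy.2.2.2.2.2.1, hy.2.2.2.1⟩⟩
    · right; right
      rw [hF]
      exact ⟨E_a_empty (hA.sa _ _ _ hy), Or.inr ⟨y, hy, rfl⟩⟩
  · left
    rw [F, pi_self h]

theorem eventually_different (hA : Good A) {c c' : ℕ → Bool} (hne : c ≠ c') :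
    {x | F A c x = F A c' x}.Finite := by
  obtain ⟨k, hk⟩ : ∃ k, c k ≠ c' k := Function.ne_iff.1 hne
  have g1 : {x : D | x.n ≤ k}.Finite := finite_le k
  have g2 : {x : D | (F A c x).n ≤ k}.Finite :=
    (finite_le k).preimage (F_bij hA c).1.injOn
  have g3 := hA.fin1 c c' hne
  have g4 := hA.fin1 c' c hne.symm
  have g5 := hA.fin2 c c' hne
  have g6 : {x | ∃ s, A c s (E c' s) ∧ x = E c (E c' s)}.Finite := by
    refine (g3.image (fun s => E c (E c' s))).subset ?_
    rintro x ⟨s, hs, rfl⟩
    exact ⟨s, hs, rfl⟩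
  have g7 : {x | ∃ s, A c' s (E c s) ∧ x = E c' (E c s)}.Finite := by
    refine (g4.image (fun s => E c' (E c s))).subset ?_
    rintro x ⟨s, hs, rfl⟩
    exact ⟨s, hs, rfl⟩
  refine ((((((g1.union g2).union g3).union g4).union g5).union g6).union g7).subset ?_
  intro x hx
  simp only [mem_ofPred_eq] at hx
  simp only [mem_union, mem_ofPred_eq]
  rcases classify hA c x with h | h | ⟨h, h'⟩ <;> rcases classify hA c' x with q | q | ⟨q, q'⟩
  · -- base, base
    have : E c x = E c' x := by rw [← h, hx, q]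
    have := E_eq_le this hk
    tauto
  · -- base, I
    have : A c' x (E c x) := by rw [← h, hx]; exact q
    tauto
  · -- base, II
    rcases q' with ⟨q1, q2⟩ | ⟨s, hs, hs'⟩
    · have e1 : (F A c x).a = cut c (F A c x).n := by
        rw [h]
        exact E_a_empty q2
      have e2 : cut c (F A c x).n = cut c' (F A c x).n := by
        rw [← e1, hx, q]
      have := le_of_cut_eq e2 hk
      tauto
    · have e1 : E c x = E c' s := by rw [← h, hx, hs']
      have e2 : E c' x = E c s := by
        have : E c (E c' x) = s := by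
          rw [E_comm, e1, E_E]
        rw [← this, E_E]
      right
      refine ⟨s, by rw [← e2]; exact hs, ?_⟩
      rw [← e2, E_E]
  · -- I, base
    have : A c x (E c' x) := by rw [← q, ← hx]; exact h
    tauto
  · -- I, I
    have : ∃ t, A c x t ∧ A c' x t := ⟨F A c x, h, by rw [hx]; exact q⟩
    exact Or.inl (Or.inl (Or.inr this))
  · -- I, II
    rcases q' with ⟨q1, q2⟩ | ⟨s, hs, hs'⟩
    · have := hA.sf _ _ _ h
      rw [q1] at this
      exact absurd this (by simp)
    · have := hA.ta _ _ _ hs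
      rw [E_E, hA.sa _ _ _ h] at this
      exact absurd this (by simp)
  · -- II, base
    rcases h' with ⟨q1, q2⟩ | ⟨s, hs, hs'⟩
    · have e1 : (F A c' x).a = cut c' (F A c' x).n := by
        rw [q]
        exact E_a_empty q2
      have e2 : cut c (F A c x).n = cut c' (F A c x).n := by
        rw [← h, hx, e1]
      have := le_of_cut_eq e2 hk
      tauto
    · have e1 : E c' x = E c s := by rw [← q, ← hx, hs']
      have e2 : E c x = E c' s := by
        have : E c' (E c x) = s := by
          rw [E_comm, e1, E_E]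
        rw [← this, E_E]
      left; right
      refine ⟨s, by rw [← e2]; exact hs, ?_⟩
      rw [← e2, E_E]
  · -- II, I
    rcases h' with ⟨q1, q2⟩ | ⟨s, hs, hs'⟩
    · have := hA.sf _ _ _ q
      rw [q1] at this
      exact absurd this (by simp)
    · have := hA.ta _ _ _ hs
      rw [E_E, hA.sa _ _ _ q] at this
      exact absurd this (by simp)
  · -- II, II
    have e2 : cut c (F A c x).n = cut c' (F A c x).n := by
      rw [← h, hx, q]
    have := le_of_cut_eq e2 hk
    tauto

theorem isNext_loc {c c' : ℕ → Bool} {n m j : ℕ} (hm : c m = true) (hcc : ∀ k ≤ m, c' k = c k)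
    (hn : n < m) (h : IsNext c n j) : IsNext c' n j ∧ j ≤ m := by
  have hj : j ≤ m := by
    by_contra hlt
    push Not at hlt
    have := h.2.2 m hn hlt
    rw [hm] at this
    exact absurd this (by simp)
  refine ⟨⟨h.1, ?_, fun k h1 h2 => ?_⟩, hj⟩
  · rw [hcc j hj]; exact h.2.1
  · rw [hcc k (by omega)]; exact h.2.2 k h1 h2

theorem F_loc_aux (hA : Good A) {c c' : ℕ → Bool} {m : ℕ} (hm : c m = true)
    (hcc : ∀ k ≤ m, c' k = c k) {x : D} (hx : x.n < m) (hy : ∃ y, Swp A c x y) :
    F A c' x = F A c x := by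
  obtain ⟨y, hy⟩ := hy
  have hF : F A c x = E c y := by rw [F, pi_eq hA hy]
  have hE : ∀ z : D, z.n ≤ m → E c z = E c' z := fun z hz =>
    E_congr fun k hk => (hcc k (by omega)).symm
  rcases hy with (hy | hy) | (hy | hy)
  · obtain ⟨a1, a2, a3, a4, a5, a6, a7⟩ := hy
    obtain ⟨b1, b2⟩ := isNext_loc hm hcc hx a7
    have : Swp A c' x y := Or.inl (Or.inl ⟨a1, a2, a3, a4, a5, a6, b1⟩)
    rw [hF, F, pi_eq hA this, hE y b2]
  · obtain ⟨b1, b2⟩ := hA.loc _ _ _ _ _ hm hcc hy (Or.inl hx)
    rw [hF, F_of_A hA b1]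
  · obtain ⟨a1, a2, a3, a4, a5, a6, a7⟩ := hy
    have hlt : y.n < m := a7.1.trans hx
    obtain ⟨b1, b2⟩ := isNext_loc hm hcc hlt a7
    have : Swp A c' x y := Or.inr (Or.inl ⟨a1, a2, a3, a4, a5, a6, b1⟩)
    rw [hF, F, pi_eq hA this, hE y hlt.le]
  · obtain ⟨b1, b2⟩ := hA.loc _ _ _ _ _ hm hcc hy (Or.inr hx)
    have : Swp A c' x y := Or.inr (Or.inr (by rw [← hE x hx.le]; exact b1))
    rw [hF, F, pi_eq hA this, hE y b2]

theorem F_loc (hA : Good A) {c c' : ℕ → Bool} {m : ℕ} (hm : c m = true)
    (hcc : ∀ k ≤ m, c' k = c k) {x : D} (hx : x.n < m) : F A c' x = F A c x := by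
  by_cases h : ∃ y, Swp A c x y
  · exact F_loc_aux hA hm hcc hx h
  · by_cases h' : ∃ y, Swp A c' x y
    · exact (F_loc_aux hA (c := c') (c' := c) (by rw [hcc m le_rfl]; exact hm)
        (fun k hk => (hcc k hk).symm) hx h').symm
    · rw [F, F, pi_self h, pi_self h']
      exact (E_congr fun k hk => (hcc k (by omega)).symm).symm

/-- the element of block `n` that carries the information on the next element of `c` -/
def P (n : ℕ) : D := ⟨n, ∅, ∅, false, by simp, by simp⟩

theorem F_P_next (hA : Good A) {c n m} (h : IsNext c n m) : (F A c (P n)).n = m := by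
  have hs : ({n} : Finset ℕ) ⊆ Finset.range m := by
    simpa using h.1
  have : Swp A c (P n) ⟨m, ∅, {n}, false, by simp, hs⟩ :=
    Or.inl (Or.inl ⟨rfl, rfl, rfl, rfl, rfl, rfl, h⟩)
  rw [F, pi_eq hA this]
  rfl

theorem F_P (hA : Good A) (c n) : n ≤ (F A c (P n)).n ∧
    (F A c (P n)).a = cut c (F A c (P n)).n := by
  by_cases h : ∃ y, Swp A c (P n) y
  · obtain ⟨y, hy⟩ := h
    have hF : F A c (P n) = E c y := by rw [F, pi_eq hA hy]
    rcases hy with (hy | hy) | (hy | hy)
    · rw [hF]
      refine ⟨?_, E_a_empty hy.2.2.2.1⟩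
      exact hy.2.2.2.2.2.2.1.le
    · have := hA.sf _ _ _ hy
      exact absurd this (by simp [P])
    · have h5 : (P n).b = {y.n} := hy.2.2.2.2.1
      exact absurd h5.symm (Finset.singleton_ne_empty _)
    · have := hA.ta _ _ _ hy
      rw [E_E] at this
      exact absurd this (by simp [P])
  · rw [F, pi_self h]
    exact ⟨le_rfl, E_a_empty rfl⟩

theorem closed_range (hA : Good A) : IsClosed (range (F A)) := by
  rw [← closure_subset_iff_isClosed]
  intro h hh
  have key : ∀ N : ℕ, ∃ c, ∀ x : D, x.n ≤ N → F A c x = h x := by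
    intro N
    rw [mem_closure_iff] at hh
    obtain ⟨g, hg1, ⟨c, rfl⟩⟩ := hh (Set.pi {x : D | x.n ≤ N} (fun x => {h x}))
      (isOpen_set_pi (finite_le N) (fun _ _ => isOpen_discrete _)) (fun x _ => rfl)
    exact ⟨c, fun x hx => hg1 x hx⟩
  choose C hC using key
  -- the limit code
  have hcut : ∀ N i, i < N → (C N i = true ↔ i ∈ (h (P (i + 1))).a) := by
    intro N i hi
    have h1 := hC N (P (i + 1)) (by show i + 1 ≤ N; omega)
    obtain ⟨h2, h3⟩ := F_P hA (C N) (i + 1)
    rw [h1] at h2 h3
    rw [h3, mem_cut]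
    constructor
    · intro h4
      exact ⟨by omega, h4⟩
    · exact fun h4 => h4.2
  classical
  set cs : ℕ → Bool := fun i => decide (i ∈ (h (P (i + 1))).a) with hcs
  have hcs' : ∀ N i, i < N → C N i = cs i := by
    intro N i hi
    have := hcut N i hi
    rw [hcs]
    by_cases h4 : i ∈ (h (P (i + 1))).a
    · rw [this.2 h4]; simp [h4]
    · have h5 : C N i ≠ true := fun h6 => h4 (this.1 h6)
      rw [Bool.eq_false_iff.2 h5]
      simp [h4]
  refine ⟨cs, ?_⟩
  by_cases hinf : ∀ n, ∃ m, n < m ∧ cs m = true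
  · funext x
    obtain ⟨m, hm1, hm2⟩ := hinf x.n
    have h1 := F_loc hA (c := cs) (c' := C (m + 1)) hm2 (fun k hk => hcs' _ _ (by omega)) hm1
    rw [← h1]
    exact hC (m + 1) x (by omega)
  · push Not at hinf
    obtain ⟨n0, hn0⟩ := hinf
    funext x
    set N := max (max (h (P n0)).n n0) x.n + 1 with hN
    have hN1 : (h (P n0)).n < N := by omega
    have hN2 : n0 < N := by omega
    have hN3 : x.n ≤ N := by omega
    have hno : ∀ m, n0 < m → C N m ≠ true := by
      intro m hm hmc
      have hex : ∃ m, n0 < m ∧ C N m = true := ⟨m, hm, hmc⟩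
      have hnext : IsNext (C N) n0 (Nat.find hex) := by
        refine ⟨(Nat.find_spec hex).1, (Nat.find_spec hex).2, fun k h1 h2 => ?_⟩
        have := Nat.find_min hex h2
        rw [not_and] at this
        exact Bool.eq_false_iff.2 (this h1)
      have h1 := F_P_next hA hnext
      rw [hC N (P n0) (by show n0 ≤ N; omega)] at h1
      have h2 : cs (Nat.find hex) = true := by
        rw [← hcs' N _ (by omega)]
        exact (Nat.find_spec hex).2
      exact hn0 _ (Nat.find_spec hex).1 h2
    have : C N = cs := by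
      funext i
      rcases lt_or_ge i N with hi | hi
      · exact hcs' N i hi
      · rw [Bool.eq_false_iff.2 (hno i (by omega)), Bool.eq_false_iff.2 (hn0 i (by omega))]
    rw [← this]
    exact hC N x hN3

end Pool.Agent.X219.ME
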