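import Mathlib
import Pool.Agent.X219.ME.Borel
import Pool.Agent.X219.ME.Swap

/-! Codes: which swaps are made, and why the family is maximal. -/

namespace Pool.Agent.X219.ME

open Set Topology Filter

instance : MeasurableSpace D := ⊤
instance : BorelSpace D := ⟨borel_eq_top_of_discrete.symm⟩

theorem P_injective : Function.Injective P := fun _ _ h => congrArg D.n h

instance : Infinite D := Infinite.of_injective P P_injective

/-- A numbering of `D`. -/
noncomputable def e : D ≃ ℕ := Classical.choice nonempty_equiv_of_countable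

/-- The real coding the graph of `g`. -/
noncomputable def gam (g : D → D) (k : ℕ) : Bool :=
  decide (e (g (e.symm (Nat.unpair k).1)) = (Nat.unpair k).2)

theorem gam_inj {g g' : D → D} (h : gam g = gam g') : g = g' := by
  funext x
  have := congrFun h (Nat.pair (e x) (e (g x)))
  simp only [gam, Nat.unpair_pair, Equiv.symm_apply_apply, decide_true] at this
  have h2 := of_decide_eq_true this.symm
  exact (e.injective h2).symm

/-- The position in block `n` used for `g`. -/
noncomputable def xg (g : D → D) (n : ℕ) : D := ⟨n, ∅, cut (gam g) n, true, by simp, cut_sub _ _⟩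

@[simp] theorem xg_n (g n) : (xg g n).n = n := rfl
@[simp] theorem xg_a (g n) : (xg g n).a = ∅ := rfl
@[simp] theorem xg_b (g n) : (xg g n).b = cut (gam g) n := rfl
@[simp] theorem xg_f (g n) : (xg g n).f = true := rfl

/-- the label of `y` extends `z` restricted to `k` -/
def pre (z : ℕ → Bool) (k : ℕ) (y : D) : Prop := k ≤ y.n ∧ ∀ i < k, (i ∈ y.a ↔ z i = true)

theorem pre_congr {z z' : ℕ → Bool} {k : ℕ} (h : ∀ i < k, z i = z' i) (y : D) :
    pre z k y ↔ pre z' k y := by
  unfold pre
  refine and_congr_right fun _ => forall_congr' fun i => ?_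
  constructor
  · intro h1 hi
    rw [← h i hi]; exact h1 hi
  · intro h1 hi
    rw [h i hi]; exact h1 hi

/-- `z` is the leftmost limit point of the labels of the values of `g` at its positions. -/
def Zr (p : (D → D) × (ℕ → Bool)) : Prop :=
  ∀ k, (∀ N, ∃ n ≥ N, pre p.2 k (p.1 (xg p.1 n))) ∧
    (p.2 k = true → ¬ ∀ N, ∃ n ≥ N, pre (Function.update p.2 k false) (k + 1) (p.1 (xg p.1 n)))

/-- The permutations that have to be caught by swaps. -/
def Rg : Set ((D → D) × (ℕ → Bool)) :=
  {p | Function.Bijective p.1 ∧ Zr p ∧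
    ∀ k, ∃ n, pre p.2 k (p.1 (xg p.1 n)) ∧ p.1 (xg p.1 n) ≠ E p.2 (xg p.1 n)}

/-- The requirement on the block of the `i`-th swap. -/
def Qc (p : (D → D) × (ℕ → Bool)) (i m ν : ℕ) : Prop :=
  pre p.2 (i + 1) (p.1 (xg p.1 ν)) ∧ p.1 (xg p.1 ν) ≠ E p.2 (xg p.1 ν) ∧ m < ν ∧
    m < (p.1 (xg p.1 ν)).n

/-! ### Local constancy -/

section loc

theorem ev_apply {I A : Type*} [TopologicalSpace A] [DiscreteTopology A] (g : I → A) (y : I) :
    ∀ᶠ g' in 𝓝 g, g' y = g y :=
  (continuous_apply y).continuousAt.eventually ((isOpen_discrete {g y}).mem_nhds rfl)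

theorem clopen_of_loc {X : Type*} [TopologicalSpace X] {φ : X → Prop}
    (h : ∀ p, ∀ᶠ p' in 𝓝 p, (φ p' ↔ φ p)) : IsClopen {p | φ p} := by
  constructor
  · rw [← isOpen_compl_iff, isOpen_iff_mem_nhds]
    intro p hp
    filter_upwards [h p] with q hq
    exact fun h' => hp (hq.1 h')
  · rw [isOpen_iff_mem_nhds]
    intro p hp
    filter_upwards [h p] with q hq
    exact hq.2 hp

theorem loc_xg (g : D → D) (n : ℕ) : ∀ᶠ g' in 𝓝 g, xg g' n = xg g n := by
  have : ∀ᶠ g' in 𝓝 g, ∀ k ∈ Set.Iio n, g' (e.symm (Nat.unpair k).1) = g (e.symm (Nat.unpair k).1) :=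
    (Set.finite_Iio n).eventually_all.2 fun k _ => ev_apply g _
  filter_upwards [this] with g' hg'
  refine D.ext rfl rfl ?_ rfl
  refine cut_congr fun k hk => ?_
  rw [gam, gam, hg' k hk]

theorem loc_y (g : D → D) (n : ℕ) : ∀ᶠ g' in 𝓝 g, g' (xg g' n) = g (xg g n) := by
  filter_upwards [loc_xg g n, ev_apply g (xg g n)] with g' h1 h2
  rw [h1, h2]

theorem loc_z (z : ℕ → Bool) (k : ℕ) : ∀ᶠ z' in 𝓝 z, ∀ i < k, z' i = z i :=
  (Set.finite_Iio k).eventually_all.2 fun i _ => ev_apply z i

theorem ev_fst {X Y : Type*} [TopologicalSpace X] [TopologicalSpace Y] {φ : X → Prop} {p : X × Y}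
    (h : ∀ᶠ x in 𝓝 p.1, φ x) : ∀ᶠ q in 𝓝 p, φ q.1 := continuous_fst.continuousAt.eventually h

theorem ev_snd {X Y : Type*} [TopologicalSpace X] [TopologicalSpace Y] {φ : Y → Prop} {p : X × Y}
    (h : ∀ᶠ x in 𝓝 p.2, φ x) : ∀ᶠ q in 𝓝 p, φ q.2 := continuous_snd.continuousAt.eventually h

theorem loc_pre (k n : ℕ) (p : (D → D) × (ℕ → Bool)) :
    ∀ᶠ q in 𝓝 p, (pre q.2 k (q.1 (xg q.1 n)) ↔ pre p.2 k (p.1 (xg p.1 n))) := by
  filter_upwards [ev_fst (loc_y p.1 n), ev_snd (loc_z p.2 k)] with q h1 h2
  rw [h1]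
  exact pre_congr h2 _

theorem loc_pre' (k n : ℕ) (p : (D → D) × (ℕ → Bool)) :
    ∀ᶠ q in 𝓝 p, (pre (Function.update q.2 k false) (k + 1) (q.1 (xg q.1 n)) ↔
      pre (Function.update p.2 k false) (k + 1) (p.1 (xg p.1 n))) := by
  filter_upwards [ev_fst (loc_y p.1 n), ev_snd (loc_z p.2 k)] with q h1 h2
  rw [h1]
  refine pre_congr (fun i hi => ?_) _
  rcases Nat.lt_succ_iff_lt_or_eq.1 hi with h | h
  · rw [Function.update_of_ne h.ne, Function.update_of_ne h.ne]
    exact h2 i h
  · subst h
    rw [Function.update_self, Function.update_self]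

theorem loc_ne (n : ℕ) (p : (D → D) × (ℕ → Bool)) :
    ∀ᶠ q in 𝓝 p, (q.1 (xg q.1 n) ≠ E q.2 (xg q.1 n) ↔ p.1 (xg p.1 n) ≠ E p.2 (xg p.1 n)) := by
  filter_upwards [ev_fst (loc_y p.1 n), ev_fst (loc_xg p.1 n), ev_snd (loc_z p.2 n)] with q h1 h2 h3
  rw [h1, h2, E_congr (c := q.2) (c' := p.2) h3]

theorem loc_Qc (i m ν : ℕ) (p : (D → D) × (ℕ → Bool)) :
    ∀ᶠ q in 𝓝 p, (Qc q i m ν ↔ Qc p i m ν) := by
  filter_upwards [loc_pre (i + 1) ν p, loc_ne ν p, ev_fst (loc_y p.1 ν)] with q h1 h2 h3
  unfold Qc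
  rw [h1, h2, h3]

end loc

theorem measurable_Rg : MeasurableSet Rg := by
  have m1 : ∀ k n, MeasurableSet {p : (D → D) × (ℕ → Bool) | pre p.2 k (p.1 (xg p.1 n))} :=
    fun k n => (clopen_of_loc (loc_pre k n)).1.measurableSet
  have m2 : ∀ k n, MeasurableSet {p : (D → D) × (ℕ → Bool) |
      pre (Function.update p.2 k false) (k + 1) (p.1 (xg p.1 n))} :=
    fun k n => (clopen_of_loc (loc_pre' k n)).1.measurableSet
  have m3 : ∀ n, MeasurableSet {p : (D → D) × (ℕ → Bool) | p.1 (xg p.1 n) ≠ E p.2 (xg p.1 n)} :=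
    fun n => (clopen_of_loc (loc_ne n)).1.measurableSet
  have m4 : ∀ k, MeasurableSet {p : (D → D) × (ℕ → Bool) | p.2 k = true} := by
    intro k
    refine (clopen_of_loc fun p => ?_).1.measurableSet
    filter_upwards [ev_snd (ev_apply p.2 k)] with q h
    rw [h]
  have m5 : ∀ x y, MeasurableSet {p : (D → D) × (ℕ → Bool) | p.1 x = y} := by
    intro x y
    refine (clopen_of_loc fun p => ?_).1.measurableSet
    filter_upwards [ev_fst (ev_apply p.1 x)] with q h
    rw [h]
  have m6 : ∀ x y, MeasurableSet {p : (D → D) × (ℕ → Bool) | p.1 x = p.1 y → x = y} := by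
    intro x y
    refine (clopen_of_loc fun p => ?_).1.measurableSet
    filter_upwards [ev_fst (ev_apply p.1 x), ev_fst (ev_apply p.1 y)] with q h h'
    rw [h, h']
  have r1 : MeasurableSet {p : (D → D) × (ℕ → Bool) | Function.Bijective p.1} := by
    have : {p : (D → D) × (ℕ → Bool) | Function.Bijective p.1} =
        (⋂ x, ⋂ y, {p : (D → D) × (ℕ → Bool) | p.1 x = p.1 y → x = y}) ∩
        (⋂ y, ⋃ x, {p : (D → D) × (ℕ → Bool) | p.1 x = y}) := by
      ext p
      simp only [mem_ofPred_eq, mem_inter_iff, mem_iInter, mem_iUnion]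
      exact Iff.rfl
    rw [this]
    exact (MeasurableSet.iInter fun x => MeasurableSet.iInter fun y => m6 x y).inter
      (MeasurableSet.iInter fun y => MeasurableSet.iUnion fun x => m5 x y)
  have r2 : MeasurableSet {p : (D → D) × (ℕ → Bool) | Zr p} := by
    have : {p : (D → D) × (ℕ → Bool) | Zr p} =
        ⋂ k, ((⋂ N, ⋃ n, ⋃ (_ : n ≥ N), {p : (D → D) × (ℕ → Bool) | pre p.2 k (p.1 (xg p.1 n))}) ∩
          ({p : (D → D) × (ℕ → Bool) | p.2 k = true}ᶜ ∪
            (⋂ N, ⋃ n, ⋃ (_ : n ≥ N), {p : (D → D) × (ℕ → Bool) |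
              pre (Function.update p.2 k false) (k + 1) (p.1 (xg p.1 n))})ᶜ)) := by
      ext p
      simp only [mem_ofPred_eq, mem_inter_iff, mem_iInter, mem_iUnion, mem_union, mem_compl_iff,
        Zr, exists_prop]
      refine forall_congr' fun k => and_congr_right fun _ => ?_
      exact imp_iff_not_or
    rw [this]
    refine MeasurableSet.iInter fun k => MeasurableSet.inter ?_ (MeasurableSet.union ?_ ?_)
    · exact MeasurableSet.iInter fun N => MeasurableSet.iUnion fun n => MeasurableSet.iUnion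
        fun _ => m1 k n
    · exact (m4 k).compl
    · exact (MeasurableSet.iInter fun N => MeasurableSet.iUnion fun n => MeasurableSet.iUnion
        fun _ => m2 k n).compl
  have r3 : MeasurableSet {p : (D → D) × (ℕ → Bool) |
      ∀ k, ∃ n, pre p.2 k (p.1 (xg p.1 n)) ∧ p.1 (xg p.1 n) ≠ E p.2 (xg p.1 n)} := by
    have : {p : (D → D) × (ℕ → Bool) |
        ∀ k, ∃ n, pre p.2 k (p.1 (xg p.1 n)) ∧ p.1 (xg p.1 n) ≠ E p.2 (xg p.1 n)} =
        ⋂ k, ⋃ n, ({p : (D → D) × (ℕ → Bool) | pre p.2 k (p.1 (xg p.1 n))} ∩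
          {p : (D → D) × (ℕ → Bool) | p.1 (xg p.1 n) ≠ E p.2 (xg p.1 n)}) := by
      ext p
      simp only [mem_ofPred_eq, mem_inter_iff, mem_iInter, mem_iUnion]
    rw [this]
    exact MeasurableSet.iInter fun k => MeasurableSet.iUnion fun n => (m1 k n).inter (m3 n)
  exact r1.inter (r2.inter r3)

theorem Zr_unique {g : D → D} {z z' : ℕ → Bool} (h : Zr (g, z)) (h' : Zr (g, z')) : z = z' := by
  by_contra hne
  have hex : ∃ k, z k ≠ z' k := Function.ne_iff.1 hne
  set k := Nat.find hex with hk
  have h1 : z k ≠ z' k := Nat.find_spec hex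
  have h2 : ∀ i < k, z i = z' i := fun i hi => not_not.1 (Nat.find_min hex hi)
  have key : ∀ (w w' : ℕ → Bool), Zr (g, w) → Zr (g, w') → (∀ i < k, w i = w' i) →
      w k = false → w' k = true → False := by
    intro w w' hw hw' hww h3 h4
    refine (hw' k).2 h4 fun N => ?_
    obtain ⟨n, hn, hp⟩ := (hw (k + 1)).1 N
    refine ⟨n, hn, (pre_congr (fun i hi => ?_) _).1 hp⟩
    rcases Nat.lt_succ_iff_lt_or_eq.1 hi with h | h
    · show w i = Function.update w' k false i
      rw [Function.update_of_ne h.ne]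
      exact hww i h
    · subst h
      show w k = Function.update w' k false k
      rw [Function.update_self, h3]
  cases ha : z k <;> cases hb : z' k
  · exact h1 (ha.trans hb.symm)
  · exact key z z' h h' h2 ha hb
  · exact key z' z h' h (fun i hi => (h2 i hi).symm) hb ha
  · exact h1 (ha.trans hb.symm)

theorem Zr_exists {g : D → D} (hg : Function.Injective g) : ∃ z, Zr (g, z) := by
  classical
  have hinj : Function.Injective (fun n => g (xg g n)) := by
    intro n m h
    exact congrArg D.n (hg h)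
  have hev : ∀ k, ∃ N, ∀ n ≥ N, k ≤ (g (xg g n)).n := by
    intro k
    have hf : {n | (g (xg g n)).n ≤ k}.Finite := (finite_le k).preimage hinj.injOn
    obtain ⟨N, hN⟩ := hf.bddAbove
    refine ⟨N + 1, fun n hn => ?_⟩
    by_contra hlt
    push Not at hlt
    have := hN (show n ∈ {n | (g (xg g n)).n ≤ k} from hlt.le)
    omega
  let fr (w : ℕ → Bool) (k : ℕ) : Prop := ∀ N, ∃ n ≥ N, pre w k (g (xg g n))
  let w : ℕ → (ℕ → Bool) := fun k => Nat.rec (fun _ => false)
    (fun k v => if fr v (k + 1) then v else Function.update v k true) k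
  have w0 : w 0 = fun _ => false := rfl
  have ws : ∀ k, w (k + 1) = if fr (w k) (k + 1) then w k else Function.update (w k) k true :=
    fun k => rfl
  have wf : ∀ k, ∀ i ≥ k, w k i = false := by
    intro k
    induction k with
    | zero => intro i _; rw [w0]
    | succ k ih =>
      intro i hi
      rw [ws]
      split_ifs
      · exact ih i (by omega)
      · rw [Function.update_of_ne (by omega)]
        exact ih i (by omega)
  have wfr : ∀ k, fr (w k) k := by
    intro k
    induction k with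
    | zero => exact fun N => ⟨N, le_rfl, by simp [pre]⟩
    | succ k ih =>
      rw [ws]
      split_ifs with h
      · exact h
      · intro N
        have h' : ∃ N, ∀ n ≥ N, ¬ pre (w k) (k + 1) (g (xg g n)) := by
          by_contra hh
          push Not at hh
          exact h hh
        obtain ⟨N1, hN1⟩ := h'
        obtain ⟨N2, hN2⟩ := hev (k + 1)
        obtain ⟨n, hn, hp⟩ := ih (max N (max N1 N2))
        refine ⟨n, by omega, ⟨hN2 n (by omega), fun i hi => ?_⟩⟩
        have h1 := hN1 n (by omega)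
        rcases Nat.lt_succ_iff_lt_or_eq.1 hi with h | h
        · rw [Function.update_of_ne h.ne]
          exact hp.2 i h
        · subst h
          rw [Function.update_self]
          simp only [iff_true]
          by_contra hni
          apply h1
          refine ⟨hN2 n (by omega), fun j hj => ?_⟩
          rcases Nat.lt_succ_iff_lt_or_eq.1 hj with h | h
          · exact hp.2 j h
          · subst h
            rw [wf j j le_rfl]
            simp [hni]
  let z : ℕ → Bool := fun k => w (k + 1) k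
  have hz : ∀ k, ∀ i < k, z i = w k i := by
    intro k
    induction k with
    | zero => intro i hi; exact absurd hi (by omega)
    | succ k ih =>
      intro i hi
      rcases Nat.lt_succ_iff_lt_or_eq.1 hi with h | h
      · rw [ih i h, ws]
        split_ifs
        · rfl
        · rw [Function.update_of_ne h.ne]
      · subst h; rfl
  refine ⟨z, fun k => ⟨fun N => ?_, fun hk hfr => ?_⟩⟩
  · obtain ⟨n, hn, hp⟩ := wfr k N
    exact ⟨n, hn, (pre_congr (hz k) _).2 hp⟩
  · have h1 : ¬ fr (w k) (k + 1) := by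
      intro h
      have h2 : w (k + 1) = w k := by rw [ws, if_pos h]
      have h3 : z k = false := by
        show w (k + 1) k = false
        rw [h2]
        exact wf k k le_rfl
      rw [show ((g, z) : (D → D) × (ℕ → Bool)).2 k = z k from rfl, h3] at hk
      exact absurd hk (by simp)
    apply h1
    intro N
    obtain ⟨n, hn, hp⟩ := hfr N
    refine ⟨n, hn, (pre_congr (fun i hi => ?_) _).1 hp⟩
    show Function.update z k false i = w k i
    rcases Nat.lt_succ_iff_lt_or_eq.1 hi with h | h
    · rw [Function.update_of_ne h.ne]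
      exact hz k i h
    · subst h
      rw [Function.update_self, wf i i le_rfl]

end Pool.Agent.X219.ME
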