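import Mathlib
import Pool.Agent.X219.ME.Code

/-! The closed family. -/

namespace Pool.Agent.X219.ME

open Set Topology Filter

/-- One entry of a code: value of `g`, value of `z`, value of the witness, and a swap. -/
abbrev Dat := D × Bool × ℕ × D × D

/-- A numbering of the entries. -/
noncomputable def enc : Dat → ℕ := Classical.choose (exists_injective_nat Dat)

theorem enc_inj : Function.Injective enc := Classical.choose_spec (exists_injective_nat Dat)

/-- the permutation coded -/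
noncomputable def G (d : ℕ → Dat) (x : D) : D := (d (e x)).1
/-- the limit point coded -/
def Z (d : ℕ → Dat) (k : ℕ) : Bool := (d k).2.1
/-- the witness coded -/
def V (d : ℕ → Dat) (k : ℕ) : ℕ := (d k).2.2.1
/-- position of the `i`-th swap -/
def S (d : ℕ → Dat) (i : ℕ) : D := (d i).2.2.2.1
/-- value of the `i`-th swap -/
def T (d : ℕ → Dat) (i : ℕ) : D := (d i).2.2.2.2

/-- The history number of `d` restricted to `i`. -/
noncomputable def nn (d : ℕ → Dat) : ℕ → ℕ
  | 0 => 0
  | i + 1 => Nat.pair (nn d i) (Nat.pair (enc (d i)) ((S d i).n + (T d i).n)) + 1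

open Classical in
/-- The point of Cantor space coding `d`. -/
noncomputable def cc (d : ℕ → Dat) (k : ℕ) : Bool :=
  if k = 0 then !(Z d 0) else decide (∃ i, nn d (i + 1) = k)

/-- Condition on the `i`-th swap. -/
def Cond (d : ℕ → Dat) (i : ℕ) : Prop :=
  S d i = xg (G d) (S d i).n ∧ T d i = G d (S d i) ∧ Qc (G d, Z d) i (nn d i) (S d i).n ∧
    ∀ ν < (S d i).n, ¬ Qc (G d, Z d) i (nn d i) ν

/-- The closed set of valid codes. -/
def CC (Ec : Set (((D → D) × (ℕ → Bool)) × (ℕ → ℕ))) : Set (ℕ → Dat) :=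
  {d | ((G d, Z d), V d) ∈ Ec ∧ ∀ i, Cond d i}

/-- The `i`-th swap of `d` is active in `c`. -/
def Act (Ec : Set (((D → D) × (ℕ → Bool)) × (ℕ → ℕ))) (c : ℕ → Bool) (d : ℕ → Dat) (i : ℕ) : Prop :=
  d ∈ CC Ec ∧ ∀ k ≤ nn d (i + 1), c k = cc d k

/-- The active swaps of `c`. -/
def Aa (Ec : Set (((D → D) × (ℕ → Bool)) × (ℕ → ℕ))) (c : ℕ → Bool) (s t : D) : Prop :=
  ∃ d i, Act Ec c d i ∧ s = S d i ∧ t = T d i

/-! ### history numbers -/

theorem nn_succ (d : ℕ → Dat) (i : ℕ) : nn d (i + 1) =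
    Nat.pair (nn d i) (Nat.pair (enc (d i)) ((S d i).n + (T d i).n)) + 1 := rfl

theorem nn_lt (d i) : nn d i < nn d (i + 1) :=
  Nat.lt_succ_of_le (Nat.left_le_pair _ _)

theorem nn_mono (d) : StrictMono (nn d) := strictMono_nat_of_lt_succ (nn_lt d)

theorem nn_ge (d i) : i ≤ nn d i := (nn_mono d).le_apply

theorem blk_lt (d i) : (S d i).n + (T d i).n < nn d (i + 1) :=
  Nat.lt_succ_of_le ((Nat.right_le_pair _ _).trans (Nat.right_le_pair _ _))

theorem nn_congr {d d' : ℕ → Dat} {i : ℕ} (h : ∀ j < i, d j = d' j) : nn d i = nn d' i := by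
  induction i with
  | zero => rfl
  | succ i ih =>
    have h1 := ih fun j hj => h j (by omega)
    have h2 := h i (by omega)
    rw [nn, nn, h1, S, S, T, T, h2]

theorem nn_inj {d d' : ℕ → Dat} {i j : ℕ} (h : nn d (i + 1) = nn d' (j + 1)) :
    i = j ∧ ∀ k ≤ i, d k = d' k := by
  induction i generalizing j with
  | zero =>
    rw [nn_succ d 0, nn_succ d' j, Nat.add_right_cancel_iff, Nat.pair_eq_pair, Nat.pair_eq_pair] at h
    have h1 : d 0 = d' j := enc_inj h.2.1
    have h2 : j = 0 := by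
      have := nn_ge d' j
      have h3 : nn d 0 = 0 := rfl
      omega
    subst h2
    refine ⟨rfl, fun k hk => ?_⟩
    obtain rfl : k = 0 := by omega
    exact h1
  | succ i ih =>
    rw [nn_succ d (i + 1), nn_succ d' j, Nat.add_right_cancel_iff, Nat.pair_eq_pair,
      Nat.pair_eq_pair] at h
    have h1 : d (i + 1) = d' j := enc_inj h.2.1
    cases j with
    | zero =>
      have h2 := h.1
      have h3 : nn d' 0 = 0 := rfl
      have h4 := nn_ge d (i + 1)
      omega
    | succ j =>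
      obtain ⟨h2, h3⟩ := ih h.1
      subst h2
      refine ⟨rfl, fun k hk => ?_⟩
      rcases Nat.lt_or_ge k (i + 1) with h5 | h5
      · exact h3 k (by omega)
      · obtain rfl : k = i + 1 := by omega
        exact h1

theorem cc_at (d i) : cc d (nn d (i + 1)) = true := by
  have h1 := nn_ge d (i + 1)
  rw [cc, if_neg (by omega)]
  simp

theorem cc_true {d : ℕ → Dat} {k : ℕ} (hk : k ≠ 0) (h : cc d k = true) : ∃ i, nn d (i + 1) = k := by
  rw [cc, if_neg hk] at h
  simpa using h

theorem cc_congr {d d' : ℕ → Dat} {k : ℕ} (h : ∀ j ≤ k, d j = d' j) : cc d k = cc d' k := by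
  rcases Nat.eq_zero_or_pos k with hk | hk
  · subst hk
    rw [cc, cc, if_pos rfl, if_pos rfl, Z, Z, h 0 le_rfl]
  · have key : ∀ (a b : ℕ → Dat), (∀ j ≤ k, a j = b j) → (∃ i, nn a (i + 1) = k) →
        ∃ i, nn b (i + 1) = k := by
      rintro a b hab ⟨i, hi⟩
      refine ⟨i, ?_⟩
      have h1 := nn_ge a (i + 1)
      rw [← nn_congr (d := a) fun j hj => hab j (by omega)]
      exact hi
    rw [cc, cc, if_neg hk.ne', if_neg hk.ne']
    rw [decide_eq_decide]
    exact ⟨key d d' h, key d' d fun j hj => (h j hj).symm⟩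

variable {Ec : Set (((D → D) × (ℕ → Bool)) × (ℕ → ℕ))}

theorem compat {c d d' i j} (h : Act Ec c d i) (h' : Act Ec c d' j)
    (hle : nn d (i + 1) ≤ nn d' (j + 1)) : i ≤ j ∧ ∀ k ≤ i, d k = d' k := by
  have h1 : cc d' (nn d (i + 1)) = true := by
    rw [← h'.2 _ hle, h.2 _ le_rfl, cc_at]
  have h2 := nn_ge d (i + 1)
  obtain ⟨j', hj'⟩ := cc_true (by omega) h1
  obtain ⟨h3, h4⟩ := nn_inj hj'.symm
  subst h3
  refine ⟨?_, h4⟩
  rw [← hj'] at hle
  have := (nn_mono d').le_iff_le.1 hle
  omega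

theorem agree {c d d' i j} (h : Act Ec c d i) (h' : Act Ec c d' j) {k : ℕ} (hi : k ≤ i) (hj : k ≤ j) :
    d k = d' k := by
  rcases le_total (nn d (i + 1)) (nn d' (j + 1)) with hle | hle
  · exact (compat h h' hle).2 k hi
  · exact ((compat h' h hle).2 k hj).symm

/-! ### facts on valid codes -/

theorem S_eq {d : ℕ → Dat} (hd : d ∈ CC Ec) (i) : S d i = xg (G d) (S d i).n := (hd.2 i).1

theorem T_eq {d : ℕ → Dat} (hd : d ∈ CC Ec) (i) : T d i = G d (S d i) := (hd.2 i).2.1

theorem S_lb {d : ℕ → Dat} (hd : d ∈ CC Ec) (i) : nn d i < (S d i).n := (hd.2 i).2.2.1.2.2.1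

theorem T_pre {d : ℕ → Dat} (hd : d ∈ CC Ec) (i) : pre (Z d) (i + 1) (T d i) := by
  have h1 := (hd.2 i).2.2.1.1
  have h2 : T d i = G d (xg (G d) (S d i).n) := by rw [← S_eq hd i]; exact T_eq hd i
  rw [h2]
  exact h1

theorem T_ne {d : ℕ → Dat} (hd : d ∈ CC Ec) (i) : T d i ≠ E (Z d) (S d i) := by
  have h1 := (hd.2 i).2.2.1.2.1
  have h2 : T d i = G d (xg (G d) (S d i).n) := by rw [← S_eq hd i]; exact T_eq hd i
  rw [h2]
  intro h3
  apply h1
  show G d (xg (G d) (S d i).n) = E (Z d) (xg (G d) (S d i).n)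
  rw [h3, ← S_eq hd i]

theorem T_lb {d : ℕ → Dat} (hd : d ∈ CC Ec) (i) : nn d i < (T d i).n := by
  have h1 := (hd.2 i).2.2.1.2.2.2
  have h2 : T d i = G d (xg (G d) (S d i).n) := by rw [← S_eq hd i]; exact T_eq hd i
  rw [h2]
  exact h1

theorem same_aux {c d d' i j} (h : Act Ec c d i) (h' : Act Ec c d' j)
    (hle : nn d (i + 1) ≤ nn d' (j + 1)) (hs : S d i = S d' j ∨ T d i = T d' j) :
    S d i = S d' j ∧ T d i = T d' j := by
  obtain ⟨h1, h2⟩ := compat h h' hle
  have h3 := h2 i le_rfl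
  have hS : S d i = S d' i := by rw [S, S, h3]
  have hT : T d i = T d' i := by rw [T, T, h3]
  rcases Nat.lt_or_ge i j with hlt | hge
  · exfalso
    have h4 : nn d' (i + 1) ≤ nn d' j := (nn_mono d').le_iff_le.2 (by omega)
    have h5 := blk_lt d' i
    rcases hs with hs | hs
    · have h6 := S_lb h'.1 j
      rw [← hs, hS] at h6
      omega
    · have h6 := T_lb h'.1 j
      rw [← hs, hT] at h6
      omega
  · obtain rfl : i = j := by omega
    exact ⟨hS, hT⟩

theorem same {c d d' i j} (h : Act Ec c d i) (h' : Act Ec c d' j)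
    (hs : S d i = S d' j ∨ T d i = T d' j) : S d i = S d' j ∧ T d i = T d' j := by
  rcases le_total (nn d (i + 1)) (nn d' (j + 1)) with hle | hle
  · exact same_aux h h' hle hs
  · have := same_aux h' h hle (hs.imp Eq.symm Eq.symm)
    exact ⟨this.1.symm, this.2.symm⟩

/-! ### closedness of the set of valid codes -/

theorem cont_G : Continuous G := by
  refine continuous_pi fun x => ?_
  exact (continuous_apply (e x)).fst

theorem cont_Z : Continuous Z := by
  refine continuous_pi fun x => ?_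
  exact (continuous_apply x).snd.fst

theorem cont_V : Continuous V := by
  refine continuous_pi fun x => ?_
  exact (continuous_apply x).snd.snd.fst

theorem closed_CC (hEc : IsClosed Ec) : IsClosed (CC Ec) := by
  have h1 : IsClosed {d : ℕ → Dat | ((G d, Z d), V d) ∈ Ec} :=
    hEc.preimage ((cont_G.prodMk cont_Z).prodMk cont_V)
  have h2 : ∀ i, IsClosed {d : ℕ → Dat | Cond d i} := by
    intro i
    refine (clopen_of_loc fun d => ?_).1
    have a1 : ∀ᶠ d' in 𝓝 d, ∀ k ∈ Set.Iic i, d' k = d k :=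
      (Set.finite_Iic i).eventually_all.2 fun k _ => ev_apply d k
    have a2 : ∀ᶠ d' in 𝓝 d, xg (G d') (S d i).n = xg (G d) (S d i).n :=
      cont_G.continuousAt.eventually (loc_xg (G d) _)
    have a3 : ∀ᶠ d' in 𝓝 d, G d' (S d i) = G d (S d i) := ev_apply d (e (S d i)) |>.mono
      fun d' h => by rw [G, G, h]
    have a4 : ∀ᶠ d' in 𝓝 d, ∀ ν ∈ Set.Iic (S d i).n,
        (Qc (G d', Z d') i (nn d i) ν ↔ Qc (G d, Z d) i (nn d i) ν) :=
      (Set.finite_Iic _).eventually_all.2 fun ν _ =>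
        (cont_G.prodMk cont_Z).continuousAt.eventually (loc_Qc i (nn d i) ν (G d, Z d))
    filter_upwards [a1, a2, a3, a4] with d' b1 b2 b3 b4
    have c1 : S d' i = S d i := by rw [S, S, b1 i (Set.mem_Iic.2 le_rfl)]
    have c2 : T d' i = T d i := by rw [T, T, b1 i (Set.mem_Iic.2 le_rfl)]
    have c3 : nn d' i = nn d i := nn_congr fun j hj => b1 j (Set.mem_Iic.2 hj.le)
    unfold Cond
    rw [c1, c2, c3, b2, b3, b4 _ (Set.mem_Iic.2 le_rfl)]
    refine and_congr_right fun _ => and_congr_right fun _ => and_congr_right fun _ => ?_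
    refine forall_congr' fun ν => forall_congr' fun hν => ?_
    rw [b4 ν (Set.mem_Iic.2 hν.le)]
  have : CC Ec = {d : ℕ → Dat | ((G d, Z d), V d) ∈ Ec} ∩ ⋂ i, {d : ℕ → Dat | Cond d i} := by
    ext d
    simp only [CC, mem_ofPred_eq, mem_inter_iff, mem_iInter]
  rw [this]
  exact h1.inter (isClosed_iInter h2)

theorem inf_active (hEc : IsClosed Ec) {c : ℕ → Bool} (h : {p : D × D | Aa Ec c p.1 p.2}.Infinite) :
    ∃ d ∈ CC Ec, c = cc d ∧ ∀ s t, Aa Ec c s t → ∃ i, s = S d i ∧ t = T d i := by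
  have hex : ∀ N, ∃ d i, N ≤ i ∧ Act Ec c d i := by
    intro N
    by_contra hno
    push Not at hno
    apply h
    have hsub : {p : D × D | Aa Ec c p.1 p.2} ⊆
        ⋃ i ∈ Set.Iio N, {p : D × D | ∃ d, Act Ec c d i ∧ p = (S d i, T d i)} := by
      rintro ⟨s, t⟩ ⟨d, i, h1, h2, h3⟩
      simp only [mem_iUnion, Set.mem_Iio, mem_ofPred_eq, exists_prop]
      refine ⟨i, ?_, d, h1, ?_⟩
      · by_contra hge
        exact hno d i (by omega) h1
      · simp only at h2 h3
        rw [h2, h3]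
    refine ((Set.finite_Iio N).biUnion fun i _ => ?_).subset hsub
    refine Set.Subsingleton.finite ?_
    rintro p ⟨d, h1, rfl⟩ q ⟨d', h1', rfl⟩
    have := agree h1 h1' (k := i) le_rfl le_rfl
    rw [S, T, S, T, this]
  choose dd ii hi hact using hex
  let ds : ℕ → Dat := fun k => dd k k
  have hds : ∀ N k, k ≤ ii N → ds k = dd N k := fun N k hk =>
    agree (hact k) (hact N) (hi k) hk
  have hmem : ds ∈ CC Ec := by
    refine (closed_CC hEc).mem_of_tendsto (b := atTop) (f := dd) ?_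
      (Eventually.of_forall fun N => (hact N).1)
    rw [tendsto_pi_nhds]
    intro k
    refine tendsto_const_nhds.congr' ?_
    filter_upwards [eventually_ge_atTop k] with N hN
    exact hds N k (hN.trans (hi N))
  refine ⟨ds, hmem, ?_, ?_⟩
  · funext k
    have h1 := nn_ge (dd k) (ii k + 1)
    have h2 := hi k
    rw [(hact k).2 k (by omega)]
    exact cc_congr fun j hj => (hds k j (by omega)).symm
  · rintro s t ⟨d, i, h1, rfl, rfl⟩
    refine ⟨i, ?_, ?_⟩
    · rw [S, S, hds i i (hi i), agree h1 (hact i) (k := i) le_rfl (hi i)]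
    · rw [T, T, hds i i (hi i), agree h1 (hact i) (k := i) le_rfl (hi i)]

theorem code_unique (h2 : ∀ p v, (p, v) ∈ Ec → p ∈ Rg)
    (h3 : ∀ p v w, (p, v) ∈ Ec → (p, w) ∈ Ec → v = w) {d d' : ℕ → Dat}
    (hd : d ∈ CC Ec) (hd' : d' ∈ CC Ec) (hG : G d = G d') : d = d' := by
  have hZ : Z d = Z d' := by
    have a1 := (h2 _ _ hd.1).2.1
    have a2 := (h2 _ _ hd'.1).2.1
    rw [← hG] at a2
    exact Zr_unique a1 a2
  have hV : V d = V d' := by
    have a1 := hd.1
    have a2 := hd'.1
    rw [← hG, ← hZ] at a2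
    exact h3 _ _ _ a1 a2
  funext i
  induction i using Nat.strong_induction_on with
  | _ i ih =>
    have hn : nn d i = nn d' i := nn_congr ih
    have c1 := hd.2 i
    have c2 := hd'.2 i
    have hν : (S d i).n = (S d' i).n := by
      rcases lt_trichotomy (S d i).n (S d' i).n with h | h | h
      · exfalso
        apply c2.2.2.2 _ h
        rw [← hG, ← hZ, ← hn]
        exact c1.2.2.1
      · exact h
      · exfalso
        apply c1.2.2.2 _ h
        rw [hG, hZ, hn]
        exact c2.2.2.1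
    have hS : S d i = S d' i := by
      rw [S_eq hd i, S_eq hd' i, hν, hG]
    have hT : T d i = T d' i := by
      rw [T_eq hd i, T_eq hd' i, hS, hG]
    have g0 : (d i).1 = (d' i).1 := by
      have := congrFun hG (e.symm i)
      simpa [G] using this
    have z0 : (d i).2.1 = (d' i).2.1 := congrFun hZ i
    have v0 : (d i).2.2.1 = (d' i).2.2.1 := congrFun hV i
    exact Prod.ext g0 (Prod.ext z0 (Prod.ext v0 (Prod.ext hS hT)))

theorem good_Aa (hEc : IsClosed Ec) (h2 : ∀ p v, (p, v) ∈ Ec → p ∈ Rg)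
    (h3 : ∀ p v w, (p, v) ∈ Ec → (p, w) ∈ Ec → v = w) : Good (Aa Ec) where
  uniq := by
    rintro c s t t' ⟨d, i, h, rfl, rfl⟩ ⟨d', j, h', hs, rfl⟩
    exact (same h h' (Or.inl hs)).2
  uniq' := by
    rintro c s s' t ⟨d, i, h, rfl, rfl⟩ ⟨d', j, h', rfl, ht⟩
    exact (same h h' (Or.inr ht)).1
  sa := by
    rintro c s t ⟨d, i, h, rfl, rfl⟩
    rw [S_eq h.1 i]; rfl
  sf := by
    rintro c s t ⟨d, i, h, rfl, rfl⟩
    rw [S_eq h.1 i]; rfl
  ta := by
    rintro c s t ⟨d, i, h, rfl, rfl⟩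
    have h1 := T_pre h.1 i
    have h4 : c 0 = !(Z d 0) := by
      rw [h.2 0 (Nat.zero_le _), cc, if_pos rfl]
    rw [E_a, Finset.mem_symmDiff, mem_cut]
    have h5 := h1.2 0 (by omega)
    have h6 := h1.1
    by_cases hz : Z d 0 = true
    · left
      refine ⟨h5.2 hz, fun h7 => ?_⟩
      rw [h7.2, hz] at h4
      exact absurd h4 (by simp)
    · right
      rw [Bool.eq_false_iff.2 hz] at h4
      exact ⟨⟨by omega, h4⟩, fun h7 => hz (h5.1 h7)⟩
  loc := by
    rintro c c' m s t hm hcc ⟨d, i, h, rfl, rfl⟩ hor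
    have h1 : nn d i < m := by
      rcases hor with h | h'
      · have := S_lb (by assumption : Act Ec c d i).1 i
        omega
      · have := T_lb h.1 i
        omega
    have h4 : nn d (i + 1) ≤ m := by
      by_contra hlt
      push Not at hlt
      have h5 : cc d m = true := by rw [← h.2 m hlt.le]; exact hm
      obtain ⟨j, hj⟩ := cc_true (by omega) h5
      rw [← hj] at h1 hlt
      have h6 := (nn_mono d).lt_iff_lt.1 h1
      have h7 := (nn_mono d).lt_iff_lt.1 hlt
      omega
    refine ⟨⟨d, i, ⟨h.1, fun k hk => ?_⟩, rfl, rfl⟩, ?_⟩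
    · rw [hcc k (by omega)]; exact h.2 k hk
    · have := blk_lt d i
      omega
  fin1 := by
    intro c c' _
    by_contra hinf
    have hinf' : {s | Aa Ec c s (E c' s)}.Infinite := hinf
    have h4 : {p : D × D | Aa Ec c p.1 p.2}.Infinite := by
      refine Set.Infinite.mono (s := (fun s => (s, E c' s)) '' {s | Aa Ec c s (E c' s)}) ?_
        (hinf'.image fun a _ b _ hab => congrArg Prod.fst hab)
      rintro _ ⟨s, hs, rfl⟩
      exact hs
    obtain ⟨d, hd, hc, hall⟩ := inf_active hEc h4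
    -- infinitely many indices
    have h5 : {i | T d i = E c' (S d i)}.Infinite := by
      intro hfin
      apply hinf
      refine (hfin.image (S d)).subset ?_
      intro s hs
      obtain ⟨i, h6, h7⟩ := hall _ _ hs
      refine ⟨i, ?_, h6.symm⟩
      show T d i = E c' (S d i)
      rw [← h6, ← h7]
    have hz : c' = Z d := by
      funext j
      obtain ⟨i, hi, hij⟩ := h5.exists_gt j
      have h6 := T_pre hd i
      have h7 : (T d i).a = cut c' (T d i).n := by
        have h8 : (T d i).n = (S d i).n := by rw [hi]; rfl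
        rw [h8, hi]
        refine E_a_empty ?_
        rw [S_eq hd i]; rfl
      have h8 := h6.2 j (by omega)
      rw [h7, mem_cut] at h8
      have h9 := h6.1
      cases ha : c' j <;> cases hb : Z d j
      · rfl
      · rw [hb] at h8
        have := (h8.2 rfl).2
        rw [ha] at this
        exact absurd this (by simp)
      · rw [hb] at h8
        exact absurd (h8.1 ⟨by omega, ha⟩) (by simp)
      · rfl
    obtain ⟨i, hi⟩ := h5.nonempty
    apply T_ne hd i
    rw [← hz]
    exact hi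
  fin2 := by
    intro c c' hne
    by_contra hinf
    have hinf' : {s | ∃ t, Aa Ec c s t ∧ Aa Ec c' s t}.Infinite := hinf
    have key : ∀ (c : ℕ → Bool) (Y : Set D), Y.Infinite → (∀ s ∈ Y, ∃ t, Aa Ec c s t) →
        {p : D × D | Aa Ec c p.1 p.2}.Infinite := by
      intro c Y hY h hfin
      apply hY
      refine (hfin.image Prod.fst).subset ?_
      intro s hs
      obtain ⟨t, ht⟩ := h s hs
      exact ⟨(s, t), ht, rfl⟩
    obtain ⟨d, hd, hc, hall⟩ := inf_active hEc (key c _ hinf' fun s hs => hs.imp fun t ht => ht.1)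
    obtain ⟨d', hd', hc', hall'⟩ := inf_active hEc (key c' _ hinf' fun s hs => hs.imp fun t ht => ht.2)
    apply hne
    rw [hc, hc']
    congr 1
    refine code_unique h2 h3 hd hd' (gam_inj ?_)
    funext k
    -- an element of large block
    obtain ⟨s, ⟨t, ht1, ht2⟩, hs⟩ : ∃ s ∈ {s | ∃ t, Aa Ec c s t ∧ Aa Ec c' s t}, k < s.n := by
      by_contra hno
      push Not at hno
      exact hinf ((finite_le k).subset fun s hs => hno s hs)
    obtain ⟨i, hi, _⟩ := hall _ _ ht1
    obtain ⟨j, hj, _⟩ := hall' _ _ ht2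
    have h5 : s.b = cut (gam (G d)) s.n := by
      rw [hi, S_eq hd i]; rfl
    have h6 : s.b = cut (gam (G d')) s.n := by
      rw [hj, S_eq hd' j]; rfl
    rw [h5] at h6
    by_contra hk
    have := le_of_cut_eq h6 hk
    omega

end Pool.Agent.X219.ME
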