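import Mathlib
import Pool.Agent.X219.ME.Main

/-! Maximality, and transfer to the natural numbers. -/

namespace Pool.Agent.X219.ME

open Set Topology Filter

theorem infinite_of_unbounded {Y : Set D} (h : ∀ k, ∃ x ∈ Y, k < x.n) : Y.Infinite := by
  intro hfin
  obtain ⟨N, hN⟩ := (hfin.image D.n).bddAbove
  obtain ⟨x, hx, hlt⟩ := h N
  have := hN (mem_image_of_mem _ hx)
  omega

variable {Ec : Set (((D → D) × (ℕ → Bool)) × (ℕ → ℕ))}

theorem exists_code (h1 : ∀ p ∈ Rg, ∃ v, (p, v) ∈ Ec) {g : D → D} {z : ℕ → Bool}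
    (hp : (g, z) ∈ Rg) : ∃ d ∈ CC Ec, G d = g := by
  classical
  obtain ⟨v, hv⟩ := h1 _ hp
  have hex : ∀ i m, ∃ ν, Qc (g, z) i m ν := by
    intro i m
    set B := (Finset.range (m + 1)).sup (fun n => (g (xg g n)).n) with hB
    obtain ⟨n, hn1, hn2⟩ := hp.2.2 (max (i + 1) (max (m + 1) (B + 1)))
    have hn3 := hn1.1
    simp only at hn3
    refine ⟨n, ⟨?_, fun j hj => hn1.2 j (by omega)⟩, hn2, ?_, ?_⟩
    · simp only
      omega
    · by_contra hle
      push Not at hle
      have : (g (xg g n)).n ≤ B :=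
        Finset.le_sup (f := fun n => (g (xg g n)).n) (Finset.mem_range.2 (by omega))
      omega
    · simp only
      omega
  let q : ℕ → ℕ → Dat := fun i m =>
    (g (e.symm i), z i, v i, xg g (Nat.find (hex i m)), g (xg g (Nat.find (hex i m))))
  let mm : ℕ → ℕ := fun i => Nat.rec 0 (fun i m =>
    Nat.pair m (Nat.pair (enc (q i m)) ((q i m).2.2.2.1.n + (q i m).2.2.2.2.n)) + 1) i
  let d : ℕ → Dat := fun i => q i (mm i)
  have hmm : ∀ i, nn d i = mm i := by
    intro i
    induction i with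
    | zero => rfl
    | succ i ih => rw [nn_succ, ih]; rfl
  have hG : G d = g := by
    funext x
    show g (e.symm (e x)) = g x
    rw [Equiv.symm_apply_apply]
  have hZ : Z d = z := rfl
  have hV : V d = v := rfl
  have hS : ∀ i, S d i = xg g (Nat.find (hex i (nn d i))) := by
    intro i
    rw [hmm]; rfl
  have hT : ∀ i, T d i = g (xg g (Nat.find (hex i (nn d i)))) := by
    intro i
    rw [hmm]; rfl
  refine ⟨d, ⟨?_, fun i => ?_⟩, hG⟩
  · rw [hG, hZ, hV]; exact hv
  · unfold Cond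
    have hn : (S d i).n = Nat.find (hex i (nn d i)) := by rw [hS]; rfl
    rw [hn, hG, hZ]
    refine ⟨hS i, ?_, Nat.find_spec (hex i (nn d i)), fun ν hν => Nat.find_min (hex i (nn d i)) hν⟩
    rw [hT, hS]

theorem maximal (hEc : IsClosed Ec) (h1 : ∀ p ∈ Rg, ∃ v, (p, v) ∈ Ec)
    (hA : Good (Aa Ec)) {g : D → D} (hg : Function.Bijective g) :
    ∃ c, {x | F (Aa Ec) c x = g x}.Infinite := by
  obtain ⟨z, hz⟩ := Zr_exists hg.1
  by_cases hcase : ∀ k, ∃ n, pre z k (g (xg g n)) ∧ g (xg g n) ≠ E z (xg g n)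
  · obtain ⟨d, hd, hG⟩ := exists_code h1 (g := g) (z := z) ⟨hg, hz, hcase⟩
    refine ⟨cc d, infinite_of_unbounded fun k => ⟨S d k, ?_, ?_⟩⟩
    · have hact : Aa Ec (cc d) (S d k) (T d k) := ⟨d, k, ⟨hd, fun _ _ => rfl⟩, rfl, rfl⟩
      show F (Aa Ec) (cc d) (S d k) = g (S d k)
      rw [F_of_A hA hact, T_eq hd k, hG]
    · exact lt_of_le_of_lt (nn_ge d k) (S_lb hd k)
  · push Not at hcase
    obtain ⟨k, hk⟩ := hcase
    refine ⟨z, fun hfin => ?_⟩
    -- eventually, the positions on which `g` agrees with the base are swapped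
    have hb : ∃ N, ∀ n ≥ N, pre z k (g (xg g n)) → ∃ t, Aa Ec z (xg g n) t := by
      obtain ⟨N, hN⟩ := (hfin.image D.n).bddAbove
      refine ⟨N + 1, fun n hn hpre => ?_⟩
      by_contra hno
      have h2 : F (Aa Ec) z (xg g n) = g (xg g n) := by
        rw [F_of_not hA (xg_a g n) (xg_f g n) hno, hk n hpre]
      have := hN (mem_image_of_mem D.n (show xg g n ∈ {x | F (Aa Ec) z x = g x} from h2))
      rw [xg_n] at this
      omega
    obtain ⟨N, hN⟩ := hb
    have hinf : {p : D × D | Aa Ec z p.1 p.2}.Infinite := by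
      have h2 : (Prod.fst '' {p : D × D | Aa Ec z p.1 p.2}).Infinite := by
        refine infinite_of_unbounded fun m => ?_
        obtain ⟨n, hn, hpre⟩ := (hz k).1 (max N (m + 1))
        obtain ⟨t, ht⟩ := hN n (by omega) hpre
        refine ⟨xg g n, ⟨(xg g n, t), ht, rfl⟩, ?_⟩
        rw [xg_n]; omega
      exact h2.of_image _
    obtain ⟨d, hd, hc, hall⟩ := inf_active hEc hinf
    have hG : G d = g := by
      refine gam_inj ?_
      funext m
      obtain ⟨n, hn, hpre⟩ := (hz k).1 (max N (m + 1))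
      obtain ⟨t, ht⟩ := hN n (by omega) hpre
      obtain ⟨i, hi, _⟩ := hall _ _ ht
      have h3 : n = (S d i).n := by rw [← hi]; rfl
      have h4 : cut (gam (G d)) n = cut (gam g) n := by
        have h5 : (S d i).b = cut (gam (G d)) (S d i).n := by
          rw [S_eq hd i]; rfl
        rw [← hi] at h5
        exact h5.symm
      by_contra hne
      have := le_of_cut_eq h4 hne
      omega
    refine infinite_of_unbounded (fun m => ⟨S d m, ?_, ?_⟩) hfin
    · have hact : Aa Ec z (S d m) (T d m) := ⟨d, m, ⟨hd, fun _ _ => by rw [hc]⟩, rfl, rfl⟩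
      show F (Aa Ec) z (S d m) = g (S d m)
      rw [F_of_A hA hact, T_eq hd m, hG]
    · exact lt_of_le_of_lt (nn_ge d m) (S_lb hd m)

theorem main : ∃ Fam : Set (ℕ → ℕ), IsClosed Fam ∧
    (∀ f ∈ Fam, Function.Bijective f) ∧
    (∀ f ∈ Fam, ∀ g ∈ Fam, f ≠ g → {n | f n = g n}.Finite) ∧
    (∀ g : ℕ → ℕ, Function.Bijective g → ∃ f ∈ Fam, {n | f n = g n}.Infinite) := by
  obtain ⟨Ec, hEc, h1, h2, h3⟩ := uproj_of_measurable measurable_Rg
  have hA : Good (Aa Ec) := good_Aa hEc h2 h3
  have hform : ∀ {f : ℕ → ℕ} {c}, F (Aa Ec) c = (fun x => e.symm (f (e x))) →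
      f = fun n => e (F (Aa Ec) c (e.symm n)) := by
    intro f c h
    funext n
    rw [h]
    simp
  refine ⟨(fun f : ℕ → ℕ => fun x : D => e.symm (f (e x))) ⁻¹' range (F (Aa Ec)), ?_, ?_, ?_, ?_⟩
  · refine (closed_range hA).preimage (continuous_pi fun x => ?_)
    exact continuous_of_discreteTopology.comp (continuous_apply (e x))
  · rintro f ⟨c, hc⟩
    rw [hform hc]
    exact e.bijective.comp ((F_bij hA c).comp e.symm.bijective)
  · rintro f ⟨c, hc⟩ g ⟨c', hc'⟩ hne
    have hcc : c ≠ c' := by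
      rintro rfl
      apply hne
      rw [hform hc, hform hc']
    refine ((eventually_different hA hcc).image e).subset ?_
    intro n hn
    refine ⟨e.symm n, ?_, by simp⟩
    have h4 : f n = g n := hn
    rw [hform hc, hform hc'] at h4
    exact e.injective h4
  · intro g hg
    have hg' : Function.Bijective (fun x => e.symm (g (e x))) :=
      e.symm.bijective.comp (hg.comp e.bijective)
    obtain ⟨c, hc⟩ := maximal hEc h1 hA hg'
    refine ⟨fun n => e (F (Aa Ec) c (e.symm n)), ⟨c, ?_⟩, ?_⟩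
    · funext x
      simp
    · refine (hc.image e.injective.injOn).mono ?_
      rintro _ ⟨x, hx, rfl⟩
      have h4 : F (Aa Ec) c x = e.symm (g (e x)) := hx
      show e (F (Aa Ec) c (e.symm (e x))) = g (e x)
      rw [Equiv.symm_apply_apply, h4, Equiv.apply_symm_apply]

end Pool.Agent.X219.ME
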